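import Mathlib
import Pool.Agent.Lib.MP_f5b555_co.Interval

/-!
Trapezoidal shifted Young lattices have coincidental down-degree expectations.
-/

set_option autoImplicit false

namespace Pool.Agent.Results.MP_f5b555_co.TrapezoidCDE

open Pool.Agent.Lib.MP_f5b555_co.Interval

/-- For all `n, k` with `2 k < n` the interval below the trapezoid `(n, n - 2, ..., n - 2 k)` in the
shifted Young lattice is finite, its expected down degree for the uniform distribution equals the
one for the maximal chain distribution, and both equal the number of boxes of the trapezoid divided
by `n + 1`. -/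
theorem result : ∀ n k : ℕ, 2 * k < n →
    Finite ↥(shiftedInterval (trapezoid n k)) ∧
    uniformExpectation ↥(shiftedInterval (trapezoid n k)) =
      maxchainExpectation ↥(shiftedInterval (trapezoid n k)) ∧
    uniformExpectation ↥(shiftedInterval (trapezoid n k)) =
      ((shiftedDiagram (trapezoid n k)).ncard : ℚ) / ((n : ℚ) + 1) := by
  intro n k hk
  have h := main n k hk
  exact ⟨finite_interval n k, h.1.trans h.2.symm, h.1⟩

end Pool.Agent.Results.MP_f5b555_co.TrapezoidCDE
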